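import Pool.Agent.VN.Final

set_option autoImplicit false

open Pool.Agent.VN

namespace Pool.Agent.VN.Kept.DichotomyRes

/-- For every torsion-free group `G` its infinite direct power `G^ℕ` is torsion-free, and either all
von Neumann kernel dimensions of matrices over the rational group rings of `G` and of `G^ℕ` are
integers, or the kernel dimensions of the matrices over `G^ℕ` all of whose entries are `0` or group
elements, with at most three group elements in every row and in every column, are dense in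
`[0, ∞)`. -/
theorem result (G : Type) [Group G] (htf : ∀ g : G, ∀ n : ℕ, 0 < n → g ^ n = 1 → g = 1) :
    (∀ g : ℕ → G, ∀ n : ℕ, 0 < n → g ^ n = 1 → g = 1) ∧
    (((∀ (m n : ℕ) (A : Matrix (Fin m) (Fin n) (G →₀ ℚ)), ∃ d : ℤ, kerDimQ A = d) ∧
      (∀ (m n : ℕ) (A : Matrix (Fin m) (Fin n) ((ℕ → G) →₀ ℚ)), ∃ d : ℤ, kerDimQ A = d)) ∨
    (∀ a b : ℝ, 0 ≤ a → a < b → ∃ (m n : ℕ) (B : Matrix (Fin m) (Fin n) (Option (ℕ → G))),
      ThreeSparse B ∧ a < kerDimQ (monoMat B) ∧ kerDimQ (monoMat B) < b)) := by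
  refine ⟨fun g n hn h => funext fun k => htf _ n hn (congrFun h k), ?_⟩
  rcases Dset_dichotomy intRing (powEmb G) (powEmb_injective G) with h | h
  · left
    refine ⟨fun m n A => h _ ?_, fun m n A => h _ (kerDimQ_mem_Dset A)⟩
    exact Dset_map intRing (oneEmb G) (oneEmb_injective G) (kerDimQ_mem_Dset A)
  · right
    intro a b ha hab
    obtain ⟨x, hx, h1, h2⟩ := h a b ha hab
    obtain ⟨m, n, B, hB, rfl⟩ := exists_threeSparse hx
    exact ⟨m, n, B, hB, h1, h2⟩

end Pool.Agent.VN.Kept.DichotomyRes
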