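import Pool.Agent.VN.FreeFinal

set_option autoImplicit false

open Pool.Agent.VN

namespace Pool.Agent.VN.Kept.FreeProduct

/-- Let `dimGroup G` be the additive subgroup of `ℝ` generated by the von Neumann dimensions of the
kernels of all matrices over `ℂG`. For a free product of an arbitrary non-empty family of groups it
is the sum of the groups of the factors. In particular, if all factors satisfy the Atiyah
conjecture over `ℂ` (the dimensions are integers), then so does the free product. -/
theorem result {ι : Type} [Nonempty ι] (G : ι → Type) [∀ i, Group (G i)] :
    dimGroup (Monoid.CoprodI G) = ⨆ i, dimGroup (G i) :=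
  dimGroup_coprodI G

end Pool.Agent.VN.Kept.FreeProduct
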