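import Pool.Agent.HX.Indec

set_option autoImplicit false

/-!
The Atiyah conjecture with complex coefficients passes to a torsion-free group from its finitely
generated, freely indecomposable subgroups without nontrivial homomorphism to the integers.
-/

/-- If every finitely generated, freely indecomposable subgroup of the torsion-free group `G` which
has no nontrivial homomorphism to `ℤ` satisfies the conclusion of the Atiyah conjecture with complex
coefficients, then so does `G`. -/
theorem Pool.Agent.Results.MP_95030e_al.OneEnded.result (G : Type) [Group G]
    (htf : ∀ g : G, ∀ n : ℕ, 0 < n → g ^ n = 1 → g = 1)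
    (h : ∀ H : Subgroup G, H.FG → (∀ f : H →* Multiplicative ℤ, f = 1) →
      Pool.Agent.HX.FreelyIndec H → Pool.Agent.VN.AtiyahOver ⊤ H) :
    Pool.Agent.VN.AtiyahOver ⊤ G :=
  Pool.Agent.HX.atiyah_of_indec G htf h
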