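import Pool.Agent.VN.Master2

set_option autoImplicit false

open Classical Pool.Agent.VN

namespace Pool.Agent.Results.MP_95030e_al.PolyBound

/-- Upper bounds for the von Neumann dimension of the kernel of an element of `ℂG`, for every
torsion-free group `G`. First for an element written as `∑ₖ pₖ(u) gₖ` with Laurent polynomials
`pₖ` in some `u ≠ 1`; then the explicit case where two terms are compared with all the others; and
the resulting bound `1/3` for all elements with exactly three terms. -/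
theorem result (G : Type) [Group G] (htf : ∀ g : G, ∀ n : ℕ, 0 < n → g ^ n = 1 → g = 1) :
    (∀ (K : Type) [Fintype K] (k₀ : K) (lam : K → ℝ), (∀ k, 0 < lam k) →
      ∑ k ∈ Finset.univ.erase k₀, lam k ≤ 1 → ∀ u : G, u ≠ 1 → ∀ (g : K → G) (p : K → (ℤ →₀ ℂ)),
      kerDim (Matrix.of fun (_ _ : Fin 1) => polyElt u g p) ≤ badAngle k₀ lam p) ∧
    (∀ (a : G →₀ ℂ) (g₁ g₂ : G), g₁ ≠ g₂ → a g₁ ≠ 0 → a g₂ ≠ 0 →
      kerDim (Matrix.of fun (_ _ : Fin 1) => a)
        ≤ Real.arccos ((‖a g₁‖ ^ 2 + ‖a g₂‖ ^ 2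
          - (∑ g ∈ a.support \ {g₁, g₂}, ‖a g‖) ^ 2) / (2 * ‖a g₁‖ * ‖a g₂‖)) / Real.pi) ∧
    (∀ a : G →₀ ℂ, a.support.card = 3 → kerDim (Matrix.of fun (_ _ : Fin 1) => a) ≤ 1 / 3) :=
  ⟨fun _ _ k₀ lam hlam hsum u hu g p => master_bound htf k₀ lam hlam hsum u hu g p,
    fun a g₁ g₂ hne h₁ h₂ => two_coeff_aux htf a g₁ g₂ hne h₁ h₂, fun a => three_term_bound htf a⟩

end Pool.Agent.Results.MP_95030e_al.PolyBound
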