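import Pool.Agent.VN.ResTree

set_option autoImplicit false

noncomputable section

namespace Pool.Agent.VN.Kept.TreeResidual

open Pool.Agent.VN

/-- Let `k` be a subring of `ℂ`. Suppose that for every finite set of nontrivial elements of `G`
there is a homomorphism from `G` to a group satisfying the Atiyah conjecture over `k` which is
nontrivial on these elements and whose kernel acts freely on some tree on which `G` acts. Then `G`
satisfies the Atiyah conjecture over `k`. -/
theorem result (k : Subring ℂ) (G : Type) [Group G]
    (hres : ∀ F : Finset G, (∀ g ∈ F, g ≠ 1) → ∃ (H : Type) (_ : Group H) (π : G →* H),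
      AtiyahOver k H ∧ TreeFree π.ker ∧ ∀ g ∈ F, π g ≠ 1) : AtiyahOver k G :=
  atiyah_of_resTree k hres

end Pool.Agent.VN.Kept.TreeResidual
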