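import Pool.Agent.VN.TwoSparse
import Pool.Agent.VN.Mat

set_option autoImplicit false

open Pool.Agent.VN

namespace Pool.Agent.VN.Kept.TwoTerms

/-- For a torsion-free group `G` and a matrix over `ℂG` such that every column has at most two
terms, or every row has at most two terms, the von Neumann dimension of the kernel of right
multiplication is an integer. -/
theorem result (G : Type) [Group G] (htf : ∀ g : G, ∀ n : ℕ, 0 < n → g ^ n = 1 → g = 1)
    (m n : ℕ) (A : Matrix (Fin m) (Fin n) (G →₀ ℂ))
    (hA : (∀ j, ∑ k, (A k j).support.card ≤ 2) ∨ (∀ k, ∑ j, (A k j).support.card ≤ 2)) :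
    ∃ d : ℤ, kerDim A = d := by
  classical
  rcases hA with hA | hA
  · obtain ⟨d, hd⟩ := two_sparse_aux htf m (Fin m) (Fintype.card_fin m) (Set.range (colF A)) (by
      rintro _ ⟨j, rfl⟩
      exact le_trans (colF_card A j) (hA j))
    exact ⟨d, by rw [kerDim_eq, hd]; simp⟩
  · obtain ⟨d, hd⟩ := two_sparse_aux htf n (Fin n) (Fintype.card_fin n)
      (Set.range (starF (colF A))) (by
      rintro _ ⟨i, rfl⟩
      exact le_trans (starF_colF_card A i) (hA i))
    refine ⟨m - n + d, ?_⟩
    have h := vdim_star (colF A)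
    rw [Fintype.card_fin, Fintype.card_fin, hd] at h
    rw [kerDim_eq]
    push_cast
    linarith

end Pool.Agent.VN.Kept.TwoTerms
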